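import Pool.Agent.V11328.Gnp

/-! Exponential concentration of extension counts in a uniformly random graph. -/

open Finset

namespace Pool.Agent.V11328.Q3

open Pool.Agent.V11328

variable {V : Type*} [Fintype V] [DecidableEq V]

open Classical in
/-- Number of graphs with prescribed pairs. -/
lemma card_pres {T1 T2 : Finset (Sym2 V)} (h1 : T1 ⊆ allE V) (h2 : T2 ⊆ allE V)
    (hd : Disjoint T1 T2) :
    ∑ G : SimpleGraph V, (if T1 ⊆ ed G ∧ Disjoint T2 (ed G) then (1 : ℝ) else 0) =
      2 ^ (#(allE V)) / 2 ^ (#T1 + #T2) := by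
  have hs := sum_graph (V := V) (fun S => if T1 ⊆ S ∧ Disjoint T2 S then (1 : ℝ) else 0)
  rw [hs]
  have hterm : ∀ S ∈ (allE V).powerset, (if T1 ⊆ S ∧ Disjoint T2 S then (1 : ℝ) else 0) =
      (∏ e ∈ S, if e ∈ T2 then (0 : ℝ) else 1) * ∏ e ∈ allE V \ S, if e ∈ T1 then (0 : ℝ) else 1 := by
    intro S hS
    by_cases ha : Disjoint T2 S
    · have e1 : ∏ e ∈ S, (if e ∈ T2 then (0 : ℝ) else 1) = 1 := by
        apply Finset.prod_eq_one
        intro e he
        rw [if_neg (fun h => (disjoint_left.1 ha) h he)]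
      rw [e1, one_mul]
      by_cases hb : T1 ⊆ S
      · rw [if_pos ⟨hb, ha⟩]
        symm
        apply Finset.prod_eq_one
        intro e he
        rw [mem_sdiff] at he
        rw [if_neg (fun h => he.2 (hb h))]
      · rw [if_neg (fun h => hb h.1)]
        symm
        obtain ⟨e, he1, he2⟩ := not_subset.1 hb
        apply Finset.prod_eq_zero (i := e)
        · rw [mem_sdiff]; exact ⟨h1 he1, he2⟩
        · rw [if_pos he1]
    · rw [if_neg (fun h => ha h.2)]
      obtain ⟨e, he1, he2⟩ := not_disjoint_iff.1 ha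
      have e1 : ∏ e ∈ S, (if e ∈ T2 then (0 : ℝ) else 1) = 0 := by
        apply Finset.prod_eq_zero (i := e) he2
        rw [if_pos he1]
      rw [e1, zero_mul]
  rw [Finset.sum_congr rfl hterm, ← Finset.prod_add]
  have h3 : ∀ e ∈ allE V, ((if e ∈ T2 then (0 : ℝ) else 1) + if e ∈ T1 then (0 : ℝ) else 1) =
      if e ∈ T1 ∪ T2 then 1 else 2 := by
    intro e _
    by_cases ha : e ∈ T1
    · have hb : e ∉ T2 := fun h => (disjoint_left.1 hd) ha h
      rw [if_neg hb, if_pos ha, if_pos (mem_union_left _ ha)]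
      norm_num
    · by_cases hb : e ∈ T2
      · rw [if_pos hb, if_neg ha, if_pos (mem_union_right _ hb)]
        norm_num
      · rw [if_neg hb, if_neg ha, if_neg]
        · norm_num
        · rw [mem_union, not_or]; exact ⟨ha, hb⟩
  rw [Finset.prod_congr rfl h3, Finset.prod_ite, Finset.prod_const_one, one_mul, Finset.prod_const]
  have h4 : (allE V).filter (fun e => ¬ e ∈ T1 ∪ T2) = allE V \ (T1 ∪ T2) := by
    ext e; simp
  rw [h4, card_sdiff_of_subset (union_subset h1 h2), card_union_of_disjoint hd,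
    pow_sub₀ (2 : ℝ) (by norm_num) (by
      rw [← card_union_of_disjoint hd]; exact card_le_card (union_subset h1 h2))]
  rfl

/-- The set of vertices with the given pattern. -/
noncomputable def patS (A B : Finset V) (G : SimpleGraph V) : Finset V := by
  classical exact univ.filter (fun w => w ∉ A ∪ B ∧ (∀ a ∈ A, G.Adj w a) ∧ ∀ b ∈ B, ¬ G.Adj w b)

lemma mem_patS {A B : Finset V} {G : SimpleGraph V} {w : V} : w ∈ patS A B G ↔
    w ∉ A ∪ B ∧ (∀ a ∈ A, G.Adj w a) ∧ ∀ b ∈ B, ¬ G.Adj w b := by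
  classical
  simp [patS]

open Classical in
/-- Exact exponential moment. -/
lemma moment {A B : Finset V} (hAB : Disjoint A B) (y : ℝ) :
    ∑ G : SimpleGraph V, (1 + y) ^ #(patS A B G) =
      2 ^ (#(allE V)) * (1 + y / 2 ^ #(A ∪ B)) ^ #(univ \ (A ∪ B)) := by
  have hexp : ∀ G : SimpleGraph V, (1 + y) ^ #(patS A B G) =
      ∑ W ∈ (univ \ (A ∪ B)).powerset, y ^ #W *
        (if ∀ w ∈ W, (∀ a ∈ A, G.Adj w a) ∧ ∀ b ∈ B, ¬ G.Adj w b then (1 : ℝ) else 0) := by
    intro G
    have e1 : (1 + y) ^ #(patS A B G) = ∏ w ∈ univ \ (A ∪ B),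
        (1 + if (∀ a ∈ A, G.Adj w a) ∧ ∀ b ∈ B, ¬ G.Adj w b then y else 0) := by
      have e2 : ∀ w ∈ univ \ (A ∪ B),
          (1 + if (∀ a ∈ A, G.Adj w a) ∧ ∀ b ∈ B, ¬ G.Adj w b then y else 0) =
          if w ∈ patS A B G then 1 + y else 1 := by
        intro w hw
        rw [mem_sdiff] at hw
        by_cases h : (∀ a ∈ A, G.Adj w a) ∧ ∀ b ∈ B, ¬ G.Adj w b
        · rw [if_pos h, if_pos (mem_patS.2 ⟨hw.2, h⟩)]
        · rw [if_neg h, if_neg (fun h' => h (mem_patS.1 h').2), add_zero]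
      rw [Finset.prod_congr rfl e2, Finset.prod_ite, Finset.prod_const_one, mul_one,
        Finset.prod_const]
      congr 2
      ext w
      simp only [mem_filter, mem_sdiff, mem_univ, true_and]
      constructor
      · exact fun h => ⟨(mem_patS.1 h).1, h⟩
      · exact fun h => h.2
    rw [e1, Finset.prod_one_add]
    refine Finset.sum_congr rfl fun W _ => ?_
    by_cases h : ∀ w ∈ W, (∀ a ∈ A, G.Adj w a) ∧ ∀ b ∈ B, ¬ G.Adj w b
    · rw [if_pos h, mul_one, ← Finset.prod_const]
      exact Finset.prod_congr rfl fun w hw => if_pos (h w hw)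
    · rw [if_neg h, mul_zero]
      push Not at h
      obtain ⟨w, hw, hw2⟩ := h
      apply Finset.prod_eq_zero hw
      rw [if_neg]
      rintro ⟨h3, h4⟩
      obtain ⟨b, hb, hb2⟩ := hw2 h3
      exact h4 b hb hb2
  simp_rw [hexp]
  rw [Finset.sum_comm]
  have hW : ∀ W ∈ (univ \ (A ∪ B)).powerset, ∑ G : SimpleGraph V, y ^ #W *
        (if ∀ w ∈ W, (∀ a ∈ A, G.Adj w a) ∧ ∀ b ∈ B, ¬ G.Adj w b then (1 : ℝ) else 0) =
      2 ^ (#(allE V)) * ∏ w ∈ W, (y / 2 ^ #(A ∪ B)) := by
    intro W hW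
    rw [mem_powerset] at hW
    rw [← Finset.mul_sum]
    have hWA : ∀ w ∈ W, w ∉ A ∧ w ∉ B := by
      intro w hw
      have := hW hw
      rw [mem_sdiff, mem_union, not_or] at this
      exact this.2
    set T1 := (W ×ˢ A).image (fun x => s(x.1, x.2)) with hT1
    set T2 := (W ×ˢ B).image (fun x => s(x.1, x.2)) with hT2
    have hinj : ∀ C : Finset V, (∀ w ∈ W, w ∉ C) → Set.InjOn (fun x : V × V => s(x.1, x.2))
        (W ×ˢ C : Finset (V × V)) := by
      rintro C hC ⟨w, a⟩ h1 ⟨w', a'⟩ h2 h3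
      simp only [coe_product, Set.mem_prod, mem_coe] at h1 h2
      simp only at h3
      rw [Sym2.eq_iff] at h3
      rcases h3 with ⟨rfl, rfl⟩ | ⟨rfl, rfl⟩
      · rfl
      · exact absurd h2.2 (hC w h1.1)
    have hc1 : #T1 = #W * #A := by
      rw [hT1, card_image_of_injOn (hinj A fun w hw => (hWA w hw).1), card_product]
    have hc2 : #T2 = #W * #B := by
      rw [hT2, card_image_of_injOn (hinj B fun w hw => (hWA w hw).2), card_product]
    have hs1 : T1 ⊆ allE V := by
      intro e he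
      rw [hT1, mem_image] at he
      obtain ⟨⟨w, a⟩, h, rfl⟩ := he
      rw [mem_product] at h
      rw [mem_allE, Sym2.mk_isDiag_iff]
      intro hwa
      have hwa' : w = a := hwa
      subst hwa'
      exact (hWA _ h.1).1 h.2
    have hs2 : T2 ⊆ allE V := by
      intro e he
      rw [hT2, mem_image] at he
      obtain ⟨⟨w, a⟩, h, rfl⟩ := he
      rw [mem_product] at h
      rw [mem_allE, Sym2.mk_isDiag_iff]
      intro hwa
      have hwa' : w = a := hwa
      subst hwa'
      exact (hWA _ h.1).2 h.2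
    have hdis : Disjoint T1 T2 := by
      rw [disjoint_left]
      intro e h1 h2
      rw [hT1, mem_image] at h1
      rw [hT2, mem_image] at h2
      obtain ⟨⟨w, a⟩, h, rfl⟩ := h1
      obtain ⟨⟨w', b⟩, h', h3⟩ := h2
      rw [mem_product] at h h'
      simp only at h h' h3
      rw [Sym2.eq_iff] at h3
      rcases h3 with ⟨rfl, rfl⟩ | ⟨rfl, rfl⟩
      · exact (disjoint_left.1 hAB) h.2 h'.2
      · exact (hWA _ h'.1).1 h.2
    have hiff : ∀ G : SimpleGraph V, (∀ w ∈ W, (∀ a ∈ A, G.Adj w a) ∧ ∀ b ∈ B, ¬ G.Adj w b) ↔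
        (T1 ⊆ ed G ∧ Disjoint T2 (ed G)) := by
      intro G
      constructor
      · intro h
        constructor
        · intro e he
          rw [hT1, mem_image] at he
          obtain ⟨⟨w, a⟩, h', rfl⟩ := he
          rw [mem_product] at h'
          rw [mem_ed]
          exact (h w h'.1).1 a h'.2
        · rw [disjoint_left]
          intro e he he2
          rw [hT2, mem_image] at he
          obtain ⟨⟨w, a⟩, h', rfl⟩ := he
          rw [mem_product] at h'
          rw [mem_ed] at he2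
          exact (h w h'.1).2 a h'.2 he2
      · rintro ⟨h1, h2⟩ w hw
        constructor
        · intro a ha
          have : s(w, a) ∈ T1 := by
            rw [hT1, mem_image]
            exact ⟨(w, a), mem_product.2 ⟨hw, ha⟩, rfl⟩
          have := h1 this
          rw [mem_ed] at this
          exact this
        · intro b hb hadj
          have h3 : s(w, b) ∈ T2 := by
            rw [hT2, mem_image]
            exact ⟨(w, b), mem_product.2 ⟨hw, hb⟩, rfl⟩
          exact (disjoint_left.1 h2) h3 ((mem_ed _ _).2 hadj)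
    have hsum : ∑ G : SimpleGraph V,
        (if ∀ w ∈ W, (∀ a ∈ A, G.Adj w a) ∧ ∀ b ∈ B, ¬ G.Adj w b then (1 : ℝ) else 0) =
        2 ^ (#(allE V)) / 2 ^ (#T1 + #T2) := by
      rw [← card_pres hs1 hs2 hdis]
      refine Finset.sum_congr rfl fun G _ => ?_
      by_cases h : T1 ⊆ ed G ∧ Disjoint T2 (ed G)
      · rw [if_pos h, if_pos ((hiff G).2 h)]
      · rw [if_neg h, if_neg (fun h' => h ((hiff G).1 h'))]
    rw [hsum, Finset.prod_const, hc1, hc2, ← Nat.mul_add, ← card_union_of_disjoint hAB, div_pow,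
      ← pow_mul, mul_comm (#(A ∪ B)) (#W)]
    ring
  rw [Finset.sum_congr rfl hW, ← Finset.mul_sum, ← Finset.prod_one_add, Finset.prod_const]

/-- Concentration. -/
lemma conc {A B : Finset V} (hAB : Disjoint A B) {δ : ℝ} (hδ0 : 0 < δ) (hδ1 : δ ≤ 1) {σ : ℝ}
    (hσ : σ = 1 ∨ σ = -1) (S : Finset (SimpleGraph V))
    (hS : ∀ G ∈ S, δ * Fintype.card V ≤
      σ * ((#(patS A B G) : ℝ) - #(univ \ (A ∪ B)) / 2 ^ #(A ∪ B))) :
    (#S : ℝ) ≤ 2 ^ (#(allE V)) * Real.exp (-(δ ^ 2 / 4 * Fintype.card V)) := by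
  set N : ℝ := (Fintype.card V : ℝ) with hN
  set M : ℝ := (#(univ \ (A ∪ B)) : ℝ) with hM
  set q : ℝ := 2 ^ #(A ∪ B) with hq
  have hN0 : 0 ≤ N := Nat.cast_nonneg _
  have hM0 : 0 ≤ M := Nat.cast_nonneg _
  have hMN : M ≤ N := by
    rw [hM, hN]
    exact_mod_cast card_le_univ _
  have hq1 : 1 ≤ q := one_le_pow₀ (by norm_num)
  set l : ℝ := σ * (δ / 2) with hl
  have hl1 : |l| ≤ 1 := by
    rw [hl, abs_mul]
    have h0 : |σ| = 1 := by rcases hσ with h | h <;> rw [h] <;> simp
    rw [h0, one_mul, abs_of_pos (by linarith)]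
    linarith
  have hl2 : l ^ 2 = δ ^ 2 / 4 := by
    rw [hl, mul_pow]
    rcases hσ with h | h <;> rw [h] <;> ring
  have hm := moment hAB (Real.exp l - 1)
  have hstep : (#S : ℝ) ≤
      ∑ G : SimpleGraph V, Real.exp (-(l * (M / q)) - δ ^ 2 / 2 * N) *
        (1 + (Real.exp l - 1)) ^ #(patS A B G) := by
    have h0 : (#S : ℝ) = ∑ G ∈ S, (1 : ℝ) := by simp
    rw [h0]
    refine le_trans (Finset.sum_le_sum fun G hG => ?_)
      (Finset.sum_le_univ_sum_of_nonneg fun G => by
        rw [add_sub_cancel]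
        positivity)
    have h := hS G hG
    have h1 : (1 + (Real.exp l - 1)) ^ #(patS A B G) = Real.exp (l * #(patS A B G)) := by
      rw [add_sub_cancel, ← Real.exp_nat_mul, mul_comm]
    rw [h1, ← Real.exp_add]
    rw [Real.one_le_exp_iff]
    have h2 : l * #(patS A B G) - l * (M / q) = (δ / 2) * (σ * ((#(patS A B G) : ℝ) - M / q)) := by
      rw [hl]; ring
    have h3 : (δ / 2) * (δ * N) ≤ (δ / 2) * (σ * ((#(patS A B G) : ℝ) - M / q)) :=
      mul_le_mul_of_nonneg_left h (by positivity)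
    nlinarith
  refine hstep.trans ?_
  rw [← Finset.mul_sum, hm, mul_left_comm]
  refine mul_le_mul_of_nonneg_left ?_ (by positivity)
  have hbase : 1 + (Real.exp l - 1) / q ≤ Real.exp ((Real.exp l - 1) / q) := by
    have := Real.add_one_le_exp ((Real.exp l - 1) / q)
    linarith
  have hbase0 : 0 ≤ 1 + (Real.exp l - 1) / q := by
    have h1 : -1 ≤ (Real.exp l - 1) / q := by
      rw [le_div_iff₀ (by linarith)]
      have := Real.exp_pos l
      linarith
    linarith
  calc Real.exp (-(l * (M / q)) - δ ^ 2 / 2 * N) *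
        (1 + (Real.exp l - 1) / q) ^ #(univ \ (A ∪ B))
      ≤ Real.exp (-(l * (M / q)) - δ ^ 2 / 2 * N) *
        (Real.exp ((Real.exp l - 1) / q)) ^ #(univ \ (A ∪ B)) :=
        mul_le_mul_of_nonneg_left (pow_le_pow_left₀ hbase0 hbase _) (Real.exp_pos _).le
    _ = Real.exp (-(l * (M / q)) - δ ^ 2 / 2 * N + M * ((Real.exp l - 1) / q)) := by
        rw [← Real.exp_nat_mul, ← Real.exp_add]
    _ ≤ _ := by
        rw [Real.exp_le_exp]
        have hb := (abs_le.1 (Real.abs_exp_sub_one_sub_id_le hl1)).2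
        have h2 : M * ((Real.exp l - 1) / q) - l * (M / q) = (M / q) * (Real.exp l - 1 - l) := by
          ring
        have h3 : M / q ≤ N := (div_le_self hM0 hq1).trans hMN
        have h4 : 0 ≤ M / q := by positivity
        have h5 : (M / q) * (Real.exp l - 1 - l) ≤ N * (δ ^ 2 / 4) := by
          rw [hl2] at hb
          calc (M / q) * (Real.exp l - 1 - l) ≤ (M / q) * (δ ^ 2 / 4) :=
                mul_le_mul_of_nonneg_left hb h4
            _ ≤ N * (δ ^ 2 / 4) := mul_le_mul_of_nonneg_right h3 (by positivity)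
        linarith

end Pool.Agent.V11328.Q3
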