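import Mathlib

/-! Fractional solution of the shortest path load balancing problem in a quasirandom graph. -/

open Finset

namespace Pool.Agent.V11328.Q3

variable {V : Type*} [Fintype V] [DecidableEq V] (G : SimpleGraph V) [DecidableRel G.Adj]

/-- Number of common neighbours. -/
def cd (u v : V) : ℕ := #(univ.filter fun w => G.Adj u w ∧ G.Adj v w)

/-- Number of vertices adjacent to `u`, different from `v` and not adjacent to `v`. -/
def co (u v : V) : ℕ := #(univ.filter fun w => G.Adj u w ∧ Gᶜ.Adj v w)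

/-- Gadgets. -/
def SS (u q q' : V) : Finset (V × V) := univ.filter fun x =>
  (G.Adj q x.1 ∧ G.Adj q' x.1) ∧ (G.Adj q x.2 ∧ G.Adj q' x.2) ∧ Gᶜ.Adj u x.1 ∧ Gᶜ.Adj u x.2 ∧
    Gᶜ.Adj x.1 x.2

/-- The order of the graph, as a rational. -/
def nn (V : Type*) [Fintype V] : ℚ := (Fintype.card V : ℚ)

/-- Quasirandomness conditions. -/
structure Quasi (ε : ℚ) : Prop where
  eps0 : 0 < ε
  eps : ε ≤ 1 / 2000000
  card : 2 ≤ Fintype.card V
  cd_le : ∀ u v, u ≠ v → (cd G u v : ℚ) ≤ (1 / 4 + ε) * nn V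
  cd_ge : ∀ u v, u ≠ v → (1 / 4 - ε) * nn V ≤ (cd G u v : ℚ)
  co_le : ∀ u v, u ≠ v → (co G u v : ℚ) ≤ (1 / 4 + ε) * nn V
  co_ge : ∀ u v, u ≠ v → (1 / 4 - ε) * nn V ≤ (co G u v : ℚ)
  gad : ∀ u q q', G.Adj u q → G.Adj u q' → nn V ^ 2 / 200 ≤ (#(SS G u q q') : ℚ)

/-- Base loads. -/
def el (u q : V) : ℚ := ∑ v, if G.Adj q v ∧ Gᶜ.Adj u v then 1 / (cd G u v : ℚ) else 0

/-- Degree. -/
def dg (u : V) : ℕ := #(univ.filter fun w => G.Adj u w)

/-- Average of the base load. -/
def cc : ℚ := (∑ u, ∑ q, if G.Adj u q then el G u q else 0) / (∑ u, (dg G u : ℚ))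

/-- Demands. -/
def dd (u : V) : ℚ := ∑ q, if G.Adj u q then el G u q - cc G else 0

/-- Exchange between two vertices. -/
def phi (p p' : V) : ℚ := (dd G p - dd G p') / nn V

/-- Flow. -/
def hh (p q : V) : ℚ := if G.Adj p q then
  (∑ p', if G.Adj q p' then phi G p p' / (cd G p p' : ℚ) else 0) -
  (∑ q', if G.Adj p q' then phi G q q' / (cd G q q' : ℚ) else 0) else 0

/-- Amount to be moved. -/
def gg (u q : V) : ℚ := if G.Adj u q then cc G - el G u q + hh G u q else 0

/-- Moves. -/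
def ff (u q q' : V) : ℚ := (gg G u q - gg G u q') / (dg G u : ℚ)

/-- Gadget weights. -/
def om (u q q' b c : V) : ℚ :=
  if G.Adj u q ∧ G.Adj u q' ∧ (b, c) ∈ SS G u q q' then ff G u q q' / (#(SS G u q q') : ℚ) else 0

/-- Correction. -/
def yy (q u v : V) : ℚ :=
  (∑ q', ∑ c, om G u q q' v c) + (∑ q', ∑ c, om G v q q' u c) - ∑ q', ∑ p, om G p q q' u v

/-- The final weights. -/
def xx (q u v : V) : ℚ :=
  if G.Adj q u ∧ G.Adj q v ∧ Gᶜ.Adj u v then 1 / (cd G u v : ℚ) + yy G q u v else 0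

variable {G} {ε : ℚ}

lemma mem_SS {u q q' b c : V} : (b, c) ∈ SS G u q q' ↔
    (G.Adj q b ∧ G.Adj q' b) ∧ (G.Adj q c ∧ G.Adj q' c) ∧ Gᶜ.Adj u b ∧ Gᶜ.Adj u c ∧ Gᶜ.Adj b c := by
  simp [SS]

lemma cd_symm (u v : V) : cd G u v = cd G v u := by
  unfold cd
  congr 1
  ext w
  simp only [mem_filter, mem_univ, true_and]
  tauto

lemma SS_symm (u q q' : V) : SS G u q q' = SS G u q' q := by
  ext ⟨b, c⟩
  rw [mem_SS, mem_SS]
  tauto

lemma mem_SS_symm {u q q' b c : V} : (b, c) ∈ SS G u q q' ↔ (c, b) ∈ SS G u q q' := by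
  rw [mem_SS, mem_SS, SimpleGraph.adj_comm Gᶜ b c]
  tauto

section
variable (hQ : Quasi G ε)
include hQ

lemma nn_pos : 0 < nn V := by
  have := hQ.card
  unfold nn
  exact_mod_cast (by omega : 0 < Fintype.card V)

lemma nn_ge : 2 ≤ nn V := by
  have := hQ.card
  unfold nn
  exact_mod_cast this

lemma cd_ge' {u v : V} (h : u ≠ v) : nn V / 5 ≤ (cd G u v : ℚ) := by
  have := hQ.cd_ge u v h
  have h2 := nn_pos hQ
  have h3 := hQ.eps
  nlinarith

lemma cd_pos {u v : V} (h : u ≠ v) : (0 : ℚ) < cd G u v := by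
  have := cd_ge' hQ h
  have h2 := nn_pos hQ
  linarith

lemma cd_le_nn (u v : V) : (cd G u v : ℚ) ≤ nn V := by
  unfold cd nn
  exact_mod_cast (card_le_univ _)

omit hQ in
lemma dg_le (u : V) : (dg G u : ℚ) ≤ nn V := by
  unfold dg nn
  exact_mod_cast (card_le_univ _)

lemma dg_ge (u : V) : nn V / 3 ≤ (dg G u : ℚ) := by
  have hc := hQ.card
  obtain ⟨v, hv⟩ : ∃ v, v ≠ u := by
    by_contra hcon
    push Not at hcon
    have : Fintype.card V ≤ 1 := Fintype.card_le_one_iff.2 fun a b => by rw [hcon a, hcon b]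
    omega
  have h1 := hQ.cd_ge u v hv.symm
  have h2 := hQ.co_ge u v hv.symm
  have h3 : cd G u v + co G u v ≤ dg G u := by
    unfold cd co dg
    rw [← card_union_of_disjoint]
    · apply card_le_card
      intro w hw
      simp only [mem_union, mem_filter, mem_univ, true_and] at hw ⊢
      tauto
    · rw [disjoint_left]
      intro w hw hw'
      simp only [mem_filter, mem_univ, true_and, SimpleGraph.compl_adj] at hw hw'
      tauto
  have h4 : (cd G u v : ℚ) + co G u v ≤ dg G u := by exact_mod_cast h3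
  have h5 := nn_pos hQ
  have h6 := hQ.eps
  nlinarith

lemma dg_pos (u : V) : (0 : ℚ) < dg G u := by
  have := dg_ge hQ u
  have h2 := nn_pos hQ
  linarith

/-- Base loads are close to one. -/
lemma el_bound {u q : V} (h : G.Adj u q) : |el G u q - 1| ≤ 10 * ε := by
  have h0 := nn_pos hQ
  have he0 := hQ.eps0
  have he := hQ.eps
  have hel : el G u q = ∑ v ∈ univ.filter (fun v => G.Adj q v ∧ Gᶜ.Adj u v), 1 / (cd G u v : ℚ) := by
    rw [el, Finset.sum_filter]
  have hlo : (co G q u : ℚ) * (1 / ((1 / 4 + ε) * nn V)) ≤ el G u q := by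
    rw [hel, co, ← nsmul_eq_mul]
    apply Finset.card_nsmul_le_sum
    intro v hv
    simp only [mem_filter, mem_univ, true_and, SimpleGraph.compl_adj] at hv
    have h1 := hQ.cd_le u v hv.2.1
    have h2 := cd_pos hQ hv.2.1
    exact one_div_le_one_div_of_le h2 h1
  have hhi : el G u q ≤ (co G q u : ℚ) * (1 / ((1 / 4 - ε) * nn V)) := by
    rw [hel, co, ← nsmul_eq_mul]
    apply Finset.sum_le_card_nsmul
    intro v hv
    simp only [mem_filter, mem_univ, true_and, SimpleGraph.compl_adj] at hv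
    have h1 := hQ.cd_ge u v hv.2.1
    have h2 : 0 < (1 / 4 - ε) * nn V := by
      apply mul_pos _ h0
      linarith
    exact one_div_le_one_div_of_le h2 h1
  have h3 := hQ.co_le q u h.symm.ne
  have h4 := hQ.co_ge q u h.symm.ne
  have h5 : (1 / 4 - ε) / (1 / 4 + ε) ≤ el G u q := by
    refine le_trans ?_ hlo
    rw [mul_one_div, div_le_div_iff₀ (by linarith) (by positivity)]
    nlinarith
  have h6 : el G u q ≤ (1 / 4 + ε) / (1 / 4 - ε) := by
    refine hhi.trans ?_
    have h2 : 0 < (1 / 4 - ε) * nn V := by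
      apply mul_pos _ h0
      linarith
    rw [mul_one_div, div_le_div_iff₀ h2 (by linarith)]
    nlinarith
  have h7 : 1 - 10 * ε ≤ (1 / 4 - ε) / (1 / 4 + ε) := by
    rw [le_div_iff₀ (by linarith)]
    nlinarith
  have h8 : (1 / 4 + ε) / (1 / 4 - ε) ≤ 1 + 10 * ε := by
    rw [div_le_iff₀ (by linarith)]
    nlinarith
  rw [abs_le]
  constructor <;> linarith

lemma dgsum_pos : 0 < ∑ u, (dg G u : ℚ) := by
  have hc := hQ.card
  have : Nonempty V := Fintype.card_pos_iff.1 (by omega)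
  exact Finset.sum_pos (fun u _ => dg_pos hQ u) univ_nonempty

omit hQ in
lemma dg_eq_sum (u : V) : (dg G u : ℚ) = ∑ q, if G.Adj u q then 1 else 0 := by
  rw [dg, Finset.card_filter]
  push_cast
  rfl

lemma cc_bound : |cc G - 1| ≤ 10 * ε := by
  have h0 := dgsum_pos hQ
  have h1 : cc G - 1 = (∑ u, ∑ q, if G.Adj u q then el G u q - 1 else 0) /
      (∑ u, (dg G u : ℚ)) := by
    rw [cc, div_sub_one h0.ne']
    congr 1
    rw [← Finset.sum_sub_distrib]
    refine Finset.sum_congr rfl fun u _ => ?_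
    rw [dg_eq_sum, ← Finset.sum_sub_distrib]
    refine Finset.sum_congr rfl fun q _ => ?_
    split_ifs <;> simp
  rw [h1, abs_div, abs_of_pos h0, div_le_iff₀ h0]
  refine (Finset.abs_sum_le_sum_abs _ _).trans ?_
  rw [Finset.mul_sum]
  refine Finset.sum_le_sum fun u _ => ?_
  refine (Finset.abs_sum_le_sum_abs _ _).trans ?_
  rw [dg_eq_sum, Finset.mul_sum]
  refine Finset.sum_le_sum fun q _ => ?_
  split_ifs with h
  · rw [mul_one]; exact el_bound hQ h
  · simp

lemma el_cc {u q : V} (h : G.Adj u q) : |el G u q - cc G| ≤ 20 * ε := by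
  have h1 := abs_le.1 (el_bound hQ h)
  have h2 := abs_le.1 (cc_bound hQ)
  rw [abs_le]
  constructor <;> linarith [h1.1, h1.2, h2.1, h2.2]

lemma dd_bound (u : V) : |dd G u| ≤ 20 * ε * nn V := by
  have he0 := hQ.eps0
  refine (Finset.abs_sum_le_sum_abs _ _).trans ?_
  have h1 : ∀ q ∈ (univ : Finset V), |if G.Adj u q then el G u q - cc G else 0| ≤ 20 * ε := by
    intro q _
    split_ifs with h
    · exact el_cc hQ h
    · simp; linarith
  refine (Finset.sum_le_card_nsmul _ _ _ h1).trans ?_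
  rw [nsmul_eq_mul, card_univ, nn]
  apply le_of_eq
  ring

lemma dd_sum : ∑ u, dd G u = 0 := by
  have h0 := dgsum_pos hQ
  have h1 : ∀ u, dd G u = (∑ q, if G.Adj u q then el G u q else 0) - cc G * dg G u := by
    intro u
    rw [dd, dg_eq_sum, Finset.mul_sum, ← Finset.sum_sub_distrib]
    refine Finset.sum_congr rfl fun q _ => ?_
    split_ifs <;> simp
  simp_rw [h1]
  rw [Finset.sum_sub_distrib, ← Finset.mul_sum, cc, div_mul_cancel₀ _ h0.ne', sub_self]

lemma phi_bound (p p' : V) : |phi G p p'| ≤ 40 * ε := by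
  have h0 := nn_pos hQ
  rw [phi, abs_div, abs_of_pos h0, div_le_iff₀ h0]
  have h1 := abs_le.1 (dd_bound hQ p)
  have h2 := abs_le.1 (dd_bound hQ p')
  rw [abs_le]
  constructor <;> linarith [h1.1, h1.2, h2.1, h2.2]

omit hQ in
lemma phi_anti (p p' : V) : phi G p p' = - phi G p' p := by
  unfold phi; ring

lemma phi_sum (p : V) : ∑ p', phi G p p' = dd G p := by
  have h0 := nn_pos hQ
  have h1 := dd_sum hQ
  unfold phi
  rw [← Finset.sum_div, Finset.sum_sub_distrib, h1, sub_zero, Finset.sum_const, card_univ,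
    nsmul_eq_mul]
  unfold nn at h0 ⊢
  field_simp

omit hQ in
lemma hh_anti (p q : V) : hh G p q = - hh G q p := by
  unfold hh
  by_cases h : G.Adj p q
  · rw [if_pos h, if_pos h.symm]; ring
  · rw [if_neg h, if_neg (fun h' => h h'.symm)]; ring

lemma phi_cd_bound (p p' : V) : |phi G p p' / (cd G p p' : ℚ)| ≤ 200 * ε / nn V := by
  have h0 := nn_pos hQ
  have he := hQ.eps0
  by_cases h : p = p'
  · subst h
    have : phi G p p = 0 := by unfold phi; simp
    rw [this]
    simp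
    positivity
  · have h1 := cd_ge' hQ h
    have h2 := cd_pos hQ h
    rw [abs_div, abs_of_pos h2, div_le_div_iff₀ h2 h0]
    have h3 := phi_bound hQ p p'
    nlinarith

lemma hh_bound (p q : V) : |hh G p q| ≤ 400 * ε := by
  have h0 := nn_pos hQ
  have he := hQ.eps0
  have key : ∀ (a b : V), |∑ x, if G.Adj a x then phi G b x / (cd G b x : ℚ) else 0| ≤ 200 * ε := by
    intro a b
    refine (Finset.abs_sum_le_sum_abs _ _).trans ?_
    have h1 : ∀ x ∈ (univ : Finset V), |if G.Adj a x then phi G b x / (cd G b x : ℚ) else 0| ≤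
        200 * ε / nn V := by
      intro x _
      split_ifs with h
      · exact phi_cd_bound hQ b x
      · simp; positivity
    refine (Finset.sum_le_card_nsmul _ _ _ h1).trans ?_
    rw [nsmul_eq_mul, card_univ]
    have : (Fintype.card V : ℚ) = nn V := rfl
    rw [this]
    apply le_of_eq
    field_simp
  unfold hh
  split_ifs
  · have h1 := abs_le.1 (key q p)
    have h2 := abs_le.1 (key p q)
    rw [abs_le]
    constructor <;> linarith [h1.1, h1.2, h2.1, h2.2]
  · simp; positivity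

lemma hh_sum (p : V) : ∑ q, hh G p q = dd G p := by
  have h1 : ∀ q, hh G p q =
      (∑ p', if G.Adj p q ∧ G.Adj p' q then phi G p p' / (cd G p p' : ℚ) else 0) -
      (∑ q', if G.Adj p q ∧ G.Adj p q' then phi G q q' / (cd G q q' : ℚ) else 0) := by
    intro q
    unfold hh
    by_cases h : G.Adj p q
    · rw [if_pos h]
      congr 1
      · refine Finset.sum_congr rfl fun x _ => ?_
        by_cases h2 : G.Adj q x
        · rw [if_pos h2, if_pos ⟨h, h2.symm⟩]
        · rw [if_neg h2, if_neg (fun h' => h2 h'.2.symm)]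
      · refine Finset.sum_congr rfl fun x _ => ?_
        by_cases h2 : G.Adj p x
        · rw [if_pos h2, if_pos ⟨h, h2⟩]
        · rw [if_neg h2, if_neg (fun h' => h2 h'.2)]
    · rw [if_neg h, Finset.sum_eq_zero, Finset.sum_eq_zero, sub_zero]
      · intro x _
        rw [if_neg (fun h' => h h'.1)]
      · intro x _
        rw [if_neg (fun h' => h h'.1)]
  simp_rw [h1]
  rw [Finset.sum_sub_distrib]
  have h2 : ∑ q, ∑ p', (if G.Adj p q ∧ G.Adj p' q then phi G p p' / (cd G p p' : ℚ) else 0) =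
      dd G p := by
    rw [Finset.sum_comm, ← phi_sum hQ p]
    refine Finset.sum_congr rfl fun p' _ => ?_
    rw [← Finset.sum_filter, Finset.sum_const, nsmul_eq_mul]
    have : (#(univ.filter fun a => G.Adj p a ∧ G.Adj p' a) : ℚ) = cd G p p' := rfl
    rw [this]
    by_cases h : p = p'
    · subst h
      have : phi G p p = 0 := by unfold phi; simp
      rw [this]; simp
    · rw [mul_div_cancel₀ _ (cd_pos hQ h).ne']
  have h3 : ∑ q, ∑ q', (if G.Adj p q ∧ G.Adj p q' then phi G q q' / (cd G q q' : ℚ) else 0) =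
      0 := by
    have h4 : ∑ q, ∑ q', (if G.Adj p q ∧ G.Adj p q' then phi G q q' / (cd G q q' : ℚ) else 0) =
        - ∑ q, ∑ q', (if G.Adj p q ∧ G.Adj p q' then phi G q q' / (cd G q q' : ℚ) else 0) := by
      conv_lhs => rw [Finset.sum_comm]
      rw [← Finset.sum_neg_distrib]
      refine Finset.sum_congr rfl fun q _ => ?_
      rw [← Finset.sum_neg_distrib]
      refine Finset.sum_congr rfl fun q' _ => ?_
      by_cases h : G.Adj p q ∧ G.Adj p q'
      · rw [if_pos h, if_pos h.symm, phi_anti q' q, cd_symm q' q]; ring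
      · rw [if_neg h, if_neg (fun h' => h h'.symm)]; ring
    linarith
  rw [h2, h3, sub_zero]

lemma gg_sum (u : V) : ∑ q, gg G u q = 0 := by
  have h1 : ∀ q, gg G u q = hh G u q - (if G.Adj u q then el G u q - cc G else 0) := by
    intro q
    unfold gg
    by_cases h : G.Adj u q
    · rw [if_pos h, if_pos h]; ring
    · rw [if_neg h, if_neg h, hh, if_neg h]; ring
  simp_rw [h1]
  rw [Finset.sum_sub_distrib, hh_sum hQ, ← dd, sub_self]

lemma gg_bound (u q : V) : |gg G u q| ≤ 420 * ε := by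
  have he := hQ.eps0
  unfold gg
  split_ifs with h
  · have h1 := abs_le.1 (el_cc hQ h)
    have h2 := abs_le.1 (hh_bound hQ u q)
    rw [abs_le]
    constructor <;> linarith [h1.1, h1.2, h2.1, h2.2]
  · simp; positivity

lemma ff_bound (u q q' : V) : |ff G u q q'| ≤ 2520 * ε / nn V := by
  have h0 := nn_pos hQ
  have he := hQ.eps0
  have h1 := dg_ge hQ u
  have h2 := dg_pos hQ u
  have h3 := abs_le.1 (gg_bound hQ u q)
  have h4 := abs_le.1 (gg_bound hQ u q')
  have h5 : |gg G u q - gg G u q'| ≤ 840 * ε := by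
    rw [abs_le]
    constructor <;> linarith [h3.1, h3.2, h4.1, h4.2]
  rw [ff, abs_div, abs_of_pos h2, div_le_div_iff₀ h2 h0]
  have h6 := abs_nonneg (gg G u q - gg G u q')
  nlinarith

omit hQ in
lemma ff_anti (u q q' : V) : ff G u q q' = - ff G u q' q := by
  unfold ff; ring

lemma ff_sum {u q : V} : ∑ q', (if G.Adj u q' then ff G u q q' else 0) = gg G u q := by
  have h2 := dg_pos hQ u
  have h1 : ∀ q', (if G.Adj u q' then ff G u q q' else 0) =
      (gg G u q * (if G.Adj u q' then 1 else 0) - gg G u q') / dg G u := by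
    intro q'
    by_cases h : G.Adj u q'
    · rw [if_pos h, if_pos h, ff]; ring
    · have h3 : gg G u q' = 0 := by unfold gg; rw [if_neg h]
      rw [if_neg h, if_neg h, h3]; simp
  simp_rw [h1]
  rw [← Finset.sum_div, Finset.sum_sub_distrib, gg_sum hQ, ← Finset.mul_sum, ← dg_eq_sum, sub_zero,
    mul_div_cancel_right₀ _ h2.ne']

lemma om_bound (u q q' b c : V) : |om G u q q' b c| ≤ 504000 * ε / nn V ^ 3 := by
  have h0 := nn_pos hQ
  have he := hQ.eps0
  unfold om
  split_ifs with h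
  · have h1 := hQ.gad u q q' h.1 h.2.1
    have h2 : (0 : ℚ) < #(SS G u q q') := lt_of_lt_of_le (by positivity) h1
    rw [abs_div, abs_of_pos h2, div_le_div_iff₀ h2 (by positivity)]
    have h3 := ff_bound hQ u q q'
    rw [le_div_iff₀ h0] at h3
    have h4 : 504000 * ε * (nn V ^ 2 / 200) ≤ 504000 * ε * #(SS G u q q') :=
      mul_le_mul_of_nonneg_left h1 (by positivity)
    calc |ff G u q q'| * nn V ^ 3 = (|ff G u q q'| * nn V) * nn V ^ 2 := by ring
      _ ≤ 2520 * ε * nn V ^ 2 := mul_le_mul_of_nonneg_right h3 (by positivity)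
      _ = 504000 * ε * (nn V ^ 2 / 200) := by ring
      _ ≤ _ := h4
  · simp; positivity

omit hQ in
lemma om_anti (u q q' b c : V) : om G u q q' b c = - om G u q' q b c := by
  unfold om
  rw [SS_symm u q' q]
  by_cases h : G.Adj u q ∧ G.Adj u q' ∧ (b, c) ∈ SS G u q q'
  · rw [if_pos h, if_pos ⟨h.2.1, h.1, h.2.2⟩, ff_anti]; ring
  · rw [if_neg h, if_neg (fun h' => h ⟨h'.2.1, h'.1, h'.2.2⟩)]; ring

omit hQ in
lemma om_symm (u q q' b c : V) : om G u q q' b c = om G u q q' c b := by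
  unfold om
  by_cases h : G.Adj u q ∧ G.Adj u q' ∧ (b, c) ∈ SS G u q q'
  · rw [if_pos h, if_pos ⟨h.1, h.2.1, mem_SS_symm.1 h.2.2⟩]
  · rw [if_neg h, if_neg (fun h' => h ⟨h'.1, h'.2.1, mem_SS_symm.2 h'.2.2⟩)]

lemma om_sum {u q : V} (hq : G.Adj u q) (q' : V) :
    ∑ b, ∑ c, om G u q q' b c = if G.Adj u q' then ff G u q q' else 0 := by
  by_cases h : G.Adj u q'
  · rw [if_pos h, ← Finset.sum_product']
    have h1 := hQ.gad u q q' hq h
    have h2 : (0 : ℚ) < #(SS G u q q') := lt_of_lt_of_le (by have := nn_pos hQ; positivity) h1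
    have h3 : ∀ x ∈ (univ : Finset V) ×ˢ (univ : Finset V), om G u q q' x.1 x.2 =
        if x ∈ SS G u q q' then ff G u q q' / (#(SS G u q q') : ℚ) else 0 := by
      rintro ⟨b, c⟩ _
      simp only [om]
      by_cases h4 : (b, c) ∈ SS G u q q'
      · rw [if_pos ⟨hq, h, h4⟩, if_pos h4]
      · rw [if_neg (fun h' => h4 h'.2.2), if_neg h4]
    rw [Finset.sum_congr rfl h3, ← Finset.sum_filter, Finset.sum_const, nsmul_eq_mul]
    have h5 : ((univ : Finset V) ×ˢ (univ : Finset V)).filter (· ∈ SS G u q q') = SS G u q q' := by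
      ext x
      simp
    rw [h5, mul_div_cancel₀ _ h2.ne']
  · rw [if_neg h]
    apply Finset.sum_eq_zero
    intro b _
    apply Finset.sum_eq_zero
    intro c _
    rw [om, if_neg (fun h' => h h'.2.1)]

omit hQ in
lemma yy_symm (q u v : V) : yy G q u v = yy G q v u := by
  unfold yy
  have : ∑ q', ∑ p, om G p q q' u v = ∑ q', ∑ p, om G p q q' v u :=
    Finset.sum_congr rfl fun q' _ => Finset.sum_congr rfl fun p _ => om_symm _ _ _ _ _
  rw [this]
  ring

omit hQ in
lemma yy_zero {q u v : V} (h : ¬ (G.Adj q u ∧ G.Adj q v ∧ Gᶜ.Adj u v)) : yy G q u v = 0 := by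
  have h1 : ∀ q' c, om G u q q' v c = 0 := by
    intro q' c
    rw [om, if_neg]
    rintro ⟨h1, h2, h3⟩
    rw [mem_SS] at h3
    exact h ⟨h1.symm, h3.1.1, h3.2.2.1⟩
  have h2 : ∀ q' c, om G v q q' u c = 0 := by
    intro q' c
    rw [om, if_neg]
    rintro ⟨h1, h2, h3⟩
    rw [mem_SS] at h3
    exact h ⟨h3.1.1, h1.symm, h3.2.2.1.symm⟩
  have h3 : ∀ q' p, om G p q q' u v = 0 := by
    intro q' p
    rw [om, if_neg]
    rintro ⟨h1, h2, h3⟩
    rw [mem_SS] at h3
    exact h ⟨h3.1.1, h3.2.1.1, h3.2.2.2.2⟩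
  unfold yy
  simp [h1, h2, h3]

lemma yy_bound (q u v : V) : |yy G q u v| ≤ 1 / nn V := by
  have h0 := nn_pos hQ
  have he := hQ.eps0
  have key : ∀ f : V → V → ℚ, (∀ a b, |f a b| ≤ 504000 * ε / nn V ^ 3) →
      |∑ a, ∑ b, f a b| ≤ 504000 * ε / nn V := by
    intro f hf
    refine (Finset.abs_sum_le_sum_abs _ _).trans ?_
    have h1 : ∀ a ∈ (univ : Finset V), |∑ b, f a b| ≤ nn V * (504000 * ε / nn V ^ 3) := by
      intro a _
      refine (Finset.abs_sum_le_sum_abs _ _).trans ?_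
      refine (Finset.sum_le_card_nsmul _ _ _ (fun b _ => hf a b)).trans ?_
      rw [nsmul_eq_mul, card_univ, nn]
    refine (Finset.sum_le_card_nsmul _ _ _ h1).trans ?_
    rw [nsmul_eq_mul, card_univ]
    have : (Fintype.card V : ℚ) = nn V := rfl
    rw [this]
    apply le_of_eq
    field_simp
  have h1 := abs_le.1 (key (fun q' c => om G u q q' v c) (fun _ _ => om_bound hQ _ _ _ _ _))
  have h2 := abs_le.1 (key (fun q' c => om G v q q' u c) (fun _ _ => om_bound hQ _ _ _ _ _))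
  have h3 := abs_le.1 (key (fun q' p => om G p q q' u v) (fun _ _ => om_bound hQ _ _ _ _ _))
  have h4 : 504000 * ε / nn V * 3 ≤ 1 / nn V := by
    rw [div_mul_eq_mul_div, div_le_div_iff_of_pos_right h0]
    have := hQ.eps
    linarith
  unfold yy
  rw [abs_le]
  constructor <;> linarith [h1.1, h1.2, h2.1, h2.2, h3.1, h3.2]

omit hQ in
lemma yy_sum_center (u v : V) : ∑ q, yy G q u v = 0 := by
  have key : ∀ f : V → V → V → ℚ, (∀ q q' a, f q q' a = - f q' q a) →
      ∑ q, ∑ q', ∑ a, f q q' a = 0 := by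
    intro f hf
    have h4 : ∑ q, ∑ q', ∑ a, f q q' a = - ∑ q, ∑ q', ∑ a, f q q' a := by
      conv_lhs => rw [Finset.sum_comm]
      rw [← Finset.sum_neg_distrib]
      refine Finset.sum_congr rfl fun q _ => ?_
      rw [← Finset.sum_neg_distrib]
      refine Finset.sum_congr rfl fun q' _ => ?_
      rw [← Finset.sum_neg_distrib]
      exact Finset.sum_congr rfl fun a _ => hf _ _ _
    linarith
  unfold yy
  rw [Finset.sum_sub_distrib, Finset.sum_add_distrib,
    key (fun q q' c => om G u q q' v c) (fun _ _ _ => om_anti _ _ _ _ _),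
    key (fun q q' c => om G v q q' u c) (fun _ _ _ => om_anti _ _ _ _ _),
    key (fun q q' p => om G p q q' u v) (fun _ _ _ => om_anti _ _ _ _ _)]
  ring

lemma yy_sum {q u : V} (h : G.Adj u q) : ∑ v, yy G q u v = gg G u q := by
  unfold yy
  rw [Finset.sum_sub_distrib, Finset.sum_add_distrib]
  have h1 : ∑ v, ∑ q', ∑ c, om G u q q' v c = gg G u q := by
    rw [Finset.sum_comm, ← ff_sum hQ]
    exact Finset.sum_congr rfl fun q' _ => om_sum hQ h q'
  have h2 : ∑ v, ∑ q', ∑ c, om G v q q' u c = ∑ v, ∑ q', ∑ p, om G p q q' u v := by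
    rw [Finset.sum_comm]
    conv_rhs => rw [Finset.sum_comm]
    refine Finset.sum_congr rfl fun q' _ => ?_
    rw [Finset.sum_comm]
  rw [h1, h2]
  ring

lemma xx_nonneg (q u v : V) : 0 ≤ xx G q u v := by
  unfold xx
  split_ifs with h
  · have h0 := nn_pos hQ
    have h1 := abs_le.1 (yy_bound hQ q u v)
    have h2 := cd_pos hQ (h.2.2.ne)
    have h3 : 1 / nn V ≤ 1 / (cd G u v : ℚ) := one_div_le_one_div_of_le h2 (cd_le_nn hQ u v)
    linarith [h1.1]
  · exact le_rfl

omit hQ in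
lemma xx_symm (q u v : V) : xx G q u v = xx G q v u := by
  unfold xx
  by_cases h : G.Adj q u ∧ G.Adj q v ∧ Gᶜ.Adj u v
  · rw [if_pos h, if_pos ⟨h.2.1, h.1, h.2.2.symm⟩, cd_symm, yy_symm]
  · rw [if_neg h, if_neg (fun h' => h ⟨h'.2.1, h'.1, h'.2.2.symm⟩)]

omit hQ in
lemma xx_eq (q u v : V) : xx G q u v =
    (if G.Adj q u ∧ G.Adj q v ∧ Gᶜ.Adj u v then 1 / (cd G u v : ℚ) else 0) + yy G q u v := by
  unfold xx
  by_cases h : G.Adj q u ∧ G.Adj q v ∧ Gᶜ.Adj u v
  · rw [if_pos h, if_pos h]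
  · rw [if_neg h, if_neg h, yy_zero h, add_zero]

lemma xx_sum_center {u v : V} (h : Gᶜ.Adj u v) : ∑ q, xx G q u v = 1 := by
  simp_rw [xx_eq]
  rw [Finset.sum_add_distrib, yy_sum_center, add_zero, ← Finset.sum_filter, Finset.sum_const,
    nsmul_eq_mul]
  have h1 : (#(univ.filter fun q => G.Adj q u ∧ G.Adj q v ∧ Gᶜ.Adj u v) : ℚ) = cd G u v := by
    unfold cd
    congr 2
    ext q
    simp only [mem_filter, mem_univ, true_and]
    constructor
    · exact fun h' => ⟨h'.1.symm, h'.2.1.symm⟩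
    · exact fun h' => ⟨h'.1.symm, h'.2.symm, h⟩
  rw [h1, mul_one_div_cancel (cd_pos hQ h.ne).ne']

lemma xx_sum {u q : V} (h : G.Adj u q) : ∑ v, xx G q u v = el G u q + gg G u q := by
  simp_rw [xx_eq]
  rw [Finset.sum_add_distrib, yy_sum hQ h]
  congr 1
  unfold el
  refine Finset.sum_congr rfl fun v _ => ?_
  by_cases h2 : G.Adj q v ∧ Gᶜ.Adj u v
  · rw [if_pos ⟨h.symm, h2⟩, if_pos h2]
  · rw [if_neg (fun h' => h2 h'.2), if_neg h2]

/-- The load of every edge is the same. -/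
lemma xx_load {u q : V} (h : G.Adj u q) :
    ∑ v, xx G q u v + ∑ v, xx G u q v = 2 * cc G := by
  rw [xx_sum hQ h, xx_sum hQ h.symm]
  unfold gg
  rw [if_pos h, if_pos h.symm, hh_anti u q]
  ring

end

end Pool.Agent.V11328.Q3
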