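import Pool.Agent.V11328.Q3.Frac

/-! From the fractional solution to systems of shortest paths. -/

open Finset

namespace Pool.Agent.V11328.Q3

lemma exists_int {ι : Type*} [Fintype ι] (x : ι → ℚ) (hx : ∀ i, 0 ≤ x i) :
    ∃ k : ℕ, 1 ≤ k ∧ ∃ N : ι → ℕ, ∀ i, (N i : ℚ) = k * x i := by
  classical
  refine ⟨∏ i, (x i).den, Nat.one_le_iff_ne_zero.2 (Finset.prod_ne_zero_iff.2 fun i _ => (x i).den_nz),
    ?_⟩
  have : ∀ i, ∃ N : ℕ, (N : ℚ) = ((∏ i, (x i).den : ℕ) : ℚ) * x i := by
    intro i
    obtain ⟨c, hc⟩ := Finset.dvd_prod_of_mem (fun i => (x i).den) (mem_univ i)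
    refine ⟨c * (x i).num.toNat, ?_⟩
    rw [hc]
    have h1 : (((x i).num.toNat : ℕ) : ℚ) = (x i).num := by
      have : (((x i).num.toNat : ℕ) : ℤ) = (x i).num := Int.toNat_of_nonneg (Rat.num_nonneg.2 (hx i))
      exact_mod_cast this
    have h2 : ((x i).den : ℚ) * x i = (x i).num := by
      rw [mul_comm]; exact Rat.mul_den_eq_num _
    push_cast
    rw [h1, mul_comm ((x i).den : ℚ) c, mul_assoc, h2]
  choose N hN using this
  exact ⟨N, hN⟩

lemma exists_fun {V : Type*} [Fintype V] [DecidableEq V] {k : ℕ} (N : V → ℕ) (hN : ∑ q, N q = k) :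
    ∃ f : Fin k → V, ∀ q, #(univ.filter fun t => f t = q) = N q := by
  classical
  have hc : Fintype.card (Fin k) = Fintype.card (Σ q : V, Fin (N q)) := by
    rw [Fintype.card_sigma]
    simp [hN]
  let e := Fintype.equivOfCardEq hc
  refine ⟨fun t => (e t).1, fun q => ?_⟩
  have h1 : #(univ.filter fun t => (e t).1 = q) =
      #(univ.filter fun y : (Σ q : V, Fin (N q)) => y.1 = q) := by
    apply Finset.card_bij (fun t _ => e t)
    · intro t ht
      simpa using ht
    · intro a _ b _ h
      exact e.injective h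
    · intro y hy
      exact ⟨e.symm y, by simpa using hy, by simp⟩
  rw [h1]
  have h2 : #(univ.filter fun y : (Σ q : V, Fin (N q)) => y.1 = q) =
      #(univ : Finset (Fin (N q))) := by
    symm
    apply Finset.card_bij (fun i _ => (⟨q, i⟩ : Σ q : V, Fin (N q)))
    · intro i _
      simp
    · intro a _ b _ h
      simpa using h
    · rintro ⟨q', i⟩ hy
      simp only [mem_filter, mem_univ, true_and] at hy
      subst hy
      exact ⟨i, mem_univ _, rfl⟩
  rw [h2]
  simp

lemma sum_fiber {V : Type*} [Fintype V] [DecidableEq V] {k : ℕ} {N : V → ℕ} {f : Fin k → V}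
    (hf : ∀ q, #(univ.filter fun t => f t = q) = N q) (g : V → ℕ) :
    ∑ t, g (f t) = ∑ q, N q * g q := by
  have h1 : ∀ t, g (f t) = ∑ q, if f t = q then g q else 0 := by
    intro t
    simp
  simp_rw [h1]
  rw [Finset.sum_comm]
  refine Finset.sum_congr rfl fun q _ => ?_
  rw [← Finset.sum_filter, Finset.sum_const, hf, smul_eq_mul]

lemma sum_sym {V : Type*} [Fintype V] [LinearOrder V] (f : V → V → ℕ) (hf : ∀ u, f u u = 0) :
    ∑ u : V, ∑ v ∈ univ.filter (fun v => u < v), (f u v + f v u) = ∑ u, ∑ v, f u v := by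
  have h1 : ∀ u : V, ∑ v ∈ univ.filter (fun v => u < v), (f u v + f v u) =
      (∑ v, if u < v then f u v else 0) + ∑ v, if u < v then f v u else 0 := by
    intro u
    rw [Finset.sum_add_distrib, Finset.sum_filter, Finset.sum_filter]
  simp_rw [h1]
  rw [Finset.sum_add_distrib]
  conv_lhs => rhs; rw [Finset.sum_comm]
  rw [← Finset.sum_add_distrib]
  refine Finset.sum_congr rfl fun u _ => ?_
  rw [← Finset.sum_add_distrib]
  refine Finset.sum_congr rfl fun v _ => ?_
  rcases lt_trichotomy u v with h | h | h
  · rw [if_pos h, if_neg (not_lt.2 h.le), add_zero]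
  · subst h
    simp [hf]
  · rw [if_neg (not_lt.2 h.le), if_pos h, zero_add]

lemma ind_sym {V : Type*} [DecidableEq V] {a b : V} (hab : a ≠ b) (u q : V) :
    (if s(a, b) = s(u, q) then 1 else 0 : ℕ) =
      (if u = a ∧ q = b then 1 else 0) + (if u = b ∧ q = a then 1 else 0) := by
  by_cases h : s(a, b) = s(u, q)
  · rw [if_pos h]
    rw [Sym2.eq_iff] at h
    rcases h with ⟨rfl, rfl⟩ | ⟨rfl, rfl⟩
    · rw [if_pos ⟨rfl, rfl⟩, if_neg (fun h' => hab h'.1)]
    · rw [if_neg (fun h' => hab h'.2), if_pos ⟨rfl, rfl⟩]
  · rw [if_neg h, if_neg, if_neg]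
    · rintro ⟨rfl, rfl⟩; exact h Sym2.eq_swap
    · rintro ⟨rfl, rfl⟩; exact h rfl

variable {n : ℕ} {G : SimpleGraph (Fin n)} {ε : ℚ}

lemma exists_mid [DecidableRel G.Adj] (hQ : Quasi G ε) {u v : Fin n} (h : u ≠ v) :
    ∃ q, G.Adj u q ∧ G.Adj q v := by
  have h1 := cd_pos hQ h
  have h2 : 0 < cd G u v := by exact_mod_cast h1
  rw [cd, card_pos] at h2
  obtain ⟨q, hq⟩ := h2
  simp only [mem_filter, mem_univ, true_and] at hq
  exact ⟨q, hq.1, hq.2.symm⟩

/-- The main deterministic statement. -/
theorem exists_walks [DecidableRel G.Adj] (hQ : Quasi G ε) :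
    ∃ m k : ℕ, 1 ≤ m ∧ 1 ≤ k ∧
        ∃ P : ∀ u v : Fin n, Fin k → G.Walk u v,
          (∀ u v : Fin n, u < v → ∀ t : Fin k,
              (P u v t).IsPath ∧ (P u v t).length = G.dist u v) ∧
          (∀ e ∈ G.edgeSet,
              ∑ u : Fin n, ∑ v ∈ Finset.univ.filter (fun v => u < v), ∑ t : Fin k,
                (P u v t).edges.count e = m) := by
  classical
  obtain ⟨k, hk, N', hN'⟩ := exists_int (fun x : Fin n × Fin n × Fin n => xx G x.1 x.2.1 x.2.2)
    (fun x => xx_nonneg hQ _ _ _)
  set N : Fin n → Fin n → Fin n → ℕ := fun q u v => N' (q, u, v) with hNdef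
  have hN : ∀ q u v, (N q u v : ℚ) = k * xx G q u v := fun q u v => hN' (q, u, v)
  have hNsymm : ∀ q u v, N q u v = N q v u := by
    intro q u v
    have : (N q u v : ℚ) = N q v u := by rw [hN, hN, xx_symm]
    exact_mod_cast this
  have hNzero : ∀ q u v, ¬ (G.Adj q u ∧ G.Adj q v ∧ Gᶜ.Adj u v) → N q u v = 0 := by
    intro q u v h
    have : (N q u v : ℚ) = 0 := by rw [hN, xx, if_neg h, mul_zero]
    exact_mod_cast this
  have hNsum : ∀ u v, Gᶜ.Adj u v → ∑ q, N q u v = k := by
    intro u v h
    have : ((∑ q, N q u v : ℕ) : ℚ) = k := by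
      push_cast
      simp_rw [hN]
      rw [← Finset.mul_sum, xx_sum_center hQ h, mul_one]
    exact_mod_cast this
  have hconn : ∀ u v : Fin n, Nonempty (G.Walk u v) := by
    intro u v
    by_cases h : u = v
    · subst h; exact ⟨SimpleGraph.Walk.nil⟩
    · obtain ⟨q, h1, h2⟩ := exists_mid hQ h
      exact ⟨SimpleGraph.Walk.cons h1 (SimpleGraph.Walk.cons h2 SimpleGraph.Walk.nil)⟩
  -- the walks between a given pair
  have hP : ∀ u v : Fin n, ∃ P : Fin k → G.Walk u v, u < v →
      (∀ t, (P t).IsPath ∧ (P t).length = G.dist u v) ∧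
      ∀ e : Sym2 (Fin n), ∑ t, (P t).edges.count e =
        (if G.Adj u v ∧ e = s(u, v) then k else 0) +
        ∑ q, N q u v * ((if e = s(u, q) then 1 else 0) + (if e = s(v, q) then 1 else 0)) := by
    intro u v
    by_cases huv : u < v
    · by_cases hadj : G.Adj u v
      · refine ⟨fun _ => SimpleGraph.Walk.cons hadj SimpleGraph.Walk.nil, fun _ => ⟨fun t => ?_, ?_⟩⟩
        · constructor
          · rw [SimpleGraph.Walk.cons_isPath_iff]
            simp [hadj.ne]
          · simp only [SimpleGraph.Walk.length_cons, SimpleGraph.Walk.length_nil]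
            exact (SimpleGraph.dist_eq_one_iff_adj.2 hadj).symm
        · intro e
          have h0 : ∀ q, N q u v = 0 := fun q => hNzero q u v (fun h => h.2.2.2 hadj)
          simp only [h0, zero_mul, Finset.sum_const_zero, add_zero]
          simp only [SimpleGraph.Walk.edges_cons, SimpleGraph.Walk.edges_nil]
          rw [Finset.sum_const, card_univ, Fintype.card_fin, smul_eq_mul]
          by_cases he : e = s(u, v)
          · rw [if_pos ⟨hadj, he⟩, he]
            simp
          · rw [if_neg (fun h => he h.2), List.count_singleton]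
            have : (s(u, v) == e) = false := by
              rw [beq_eq_false_iff_ne]
              exact fun h => he h.symm
            rw [this]
            simp
      · have hc : Gᶜ.Adj u v := by
          rw [SimpleGraph.compl_adj]; exact ⟨huv.ne, hadj⟩
        obtain ⟨f, hf⟩ := exists_fun (fun q => N q u v) (hNsum u v hc)
        have hfa : ∀ t, G.Adj u (f t) ∧ G.Adj (f t) v := by
          intro t
          have h1 : 0 < N (f t) u v := by
            rw [← hf (f t), card_pos]
            exact ⟨t, by simp⟩
          by_contra hcon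
          rw [hNzero (f t) u v (fun h => hcon ⟨h.1.symm, h.2.1⟩)] at h1
          exact lt_irrefl _ h1
        refine ⟨fun t => SimpleGraph.Walk.cons (hfa t).1
          (SimpleGraph.Walk.cons (hfa t).2 SimpleGraph.Walk.nil), fun _ => ⟨fun t => ?_, ?_⟩⟩
        · constructor
          · rw [SimpleGraph.Walk.cons_isPath_iff, SimpleGraph.Walk.cons_isPath_iff]
            simp [(hfa t).1.ne, (hfa t).2.ne, huv.ne]
          · simp only [SimpleGraph.Walk.length_cons, SimpleGraph.Walk.length_nil]
            have h1 : G.dist u v ≤ 2 := by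
              have := SimpleGraph.dist_le (SimpleGraph.Walk.cons (hfa t).1
                (SimpleGraph.Walk.cons (hfa t).2 SimpleGraph.Walk.nil))
              simpa using this
            have hr : G.Reachable u v := ⟨SimpleGraph.Walk.cons (hfa t).1
                (SimpleGraph.Walk.cons (hfa t).2 SimpleGraph.Walk.nil)⟩
            have h2 : G.dist u v ≠ 0 := by
              intro h
              exact huv.ne (hr.dist_eq_zero_iff.1 h)
            have h3 : G.dist u v ≠ 1 := by
              intro h
              exact hadj (SimpleGraph.dist_eq_one_iff_adj.1 h)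
            omega
        · intro e
          rw [if_neg (fun h => hadj h.1), zero_add]
          rw [← sum_fiber hf (fun q => (if e = s(u, q) then 1 else 0) +
            (if e = s(v, q) then 1 else 0))]
          refine Finset.sum_congr rfl fun t _ => ?_
          simp only [SimpleGraph.Walk.edges_cons, SimpleGraph.Walk.edges_nil]
          rw [List.count_cons, List.count_singleton, Sym2.eq_swap (a := f t) (b := v)]
          have hb : ∀ x y : Sym2 (Fin n), (if (x == y) = true then 1 else 0 : ℕ) =
              if y = x then 1 else 0 := by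
            intro x y
            by_cases h : y = x
            · rw [if_pos h, if_pos (by rw [h]; simp)]
            · rw [if_neg h, if_neg (by simpa using fun h' => h h'.symm)]
          rw [hb, hb]
          ring
    · exact ⟨fun _ => Classical.choice (hconn u v), fun h => absurd h huv⟩
  choose P hP using hP
  -- the total load
  have hload : ∀ a b : Fin n, G.Adj a b →
      ∑ u : Fin n, ∑ v ∈ Finset.univ.filter (fun v => u < v), ∑ t : Fin k,
        (P u v t).edges.count s(a, b) = k + (∑ v, N b a v + ∑ v, N a b v) := by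
    intro a b hab
    have h1 : ∀ u : Fin n, ∀ v ∈ Finset.univ.filter (fun v => u < v), ∑ t : Fin k,
        (P u v t).edges.count s(a, b) =
        (((if u = a ∧ v = b then k else 0) +
          ∑ q, N q u v * (if s(a, b) = s(u, q) then 1 else 0)) +
        ((if v = a ∧ u = b then k else 0) +
          ∑ q, N q v u * (if s(a, b) = s(v, q) then 1 else 0))) := by
      intro u v huv
      have huv' : u < v := by simpa using huv
      rw [(hP u v huv').2]
      have h2 : (if G.Adj u v ∧ s(a, b) = s(u, v) then k else 0) =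
          (if u = a ∧ v = b then k else 0) + (if v = a ∧ u = b then k else 0) := by
        have h3 := ind_sym hab.ne u v
        by_cases h : s(a, b) = s(u, v)
        · have hadj : G.Adj u v := by
            have : s(u, v) ∈ G.edgeSet := by rw [← h]; exact hab
            exact this
          rw [if_pos ⟨hadj, h⟩]
          rw [Sym2.eq_iff] at h
          rcases h with ⟨rfl, rfl⟩ | ⟨rfl, rfl⟩
          · rw [if_pos ⟨rfl, rfl⟩, if_neg (fun h' => hab.ne h'.2), add_zero]
          · rw [if_neg (fun h' => hab.ne h'.2), if_pos ⟨rfl, rfl⟩, zero_add]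
        · rw [if_neg (fun h' => h h'.2), if_neg, if_neg]
          · rintro ⟨rfl, rfl⟩; exact h Sym2.eq_swap
          · rintro ⟨rfl, rfl⟩; exact h rfl
      rw [h2]
      have h4 : ∑ q, N q u v * ((if s(a, b) = s(u, q) then 1 else 0) +
          (if s(a, b) = s(v, q) then 1 else 0)) =
          ∑ q, N q u v * (if s(a, b) = s(u, q) then 1 else 0) +
          ∑ q, N q v u * (if s(a, b) = s(v, q) then 1 else 0) := by
        rw [← Finset.sum_add_distrib]
        refine Finset.sum_congr rfl fun q _ => ?_
        rw [hNsymm q v u]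
        ring
      rw [h4]
      ring
    rw [Finset.sum_congr rfl fun u _ => Finset.sum_congr rfl (h1 u)]
    rw [sum_sym (fun u v => (if u = a ∧ v = b then k else 0) +
          ∑ q, N q u v * (if s(a, b) = s(u, q) then 1 else 0))]
    · simp_rw [Finset.sum_add_distrib]
      congr 1
      · rw [Finset.sum_eq_single a, Finset.sum_eq_single b]
        · rw [if_pos ⟨rfl, rfl⟩]
        · intro v _ hv
          rw [if_neg (fun h => hv h.2)]
        · simp
        · intro u _ hu
          apply Finset.sum_eq_zero
          intro v _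
          rw [if_neg (fun h => hu h.1)]
        · simp
      · have h5 : ∀ u v q, N q u v * (if s(a, b) = s(u, q) then 1 else 0) =
            (if u = a ∧ q = b then N q u v else 0) + (if u = b ∧ q = a then N q u v else 0) := by
          intro u v q
          rw [ind_sym hab.ne]
          split_ifs <;> ring
        simp_rw [h5, Finset.sum_add_distrib]
        have h6 : ∀ (x y : Fin n), ∑ u, ∑ v, ∑ q, (if u = x ∧ q = y then N q u v else 0) =
            ∑ v, N y x v := by
          intro x y
          rw [Finset.sum_eq_single x]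
          · refine Finset.sum_congr rfl fun v _ => ?_
            rw [Finset.sum_eq_single y]
            · rw [if_pos ⟨rfl, rfl⟩]
            · intro q _ hq
              rw [if_neg (fun h => hq h.2)]
            · simp
          · intro u _ hu
            apply Finset.sum_eq_zero
            intro v _
            apply Finset.sum_eq_zero
            intro q _
            rw [if_neg (fun h => hu h.1)]
          · simp
        rw [h6, h6]
    · intro u
      rw [if_neg (fun h => hab.ne (h.1.symm.trans h.2)), zero_add]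
      apply Finset.sum_eq_zero
      intro q _
      rw [hNzero q u u (fun h => h.2.2.ne rfl), zero_mul]
  have hload2 : ∀ a b : Fin n, G.Adj a b →
      ((k + (∑ v, N b a v + ∑ v, N a b v) : ℕ) : ℚ) = k + k * (2 * cc G) := by
    intro a b hab
    push_cast
    simp_rw [hN]
    rw [← Finset.mul_sum, ← Finset.mul_sum, ← mul_add, xx_load hQ hab]
  -- an edge exists
  have hcard : 2 ≤ n := by simpa using hQ.card
  obtain ⟨b0, hb0⟩ : ∃ b, G.Adj (⟨0, by omega⟩ : Fin n) b := by
    have h1 := dg_pos hQ (⟨0, by omega⟩ : Fin n)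
    have h2 : 0 < dg G (⟨0, by omega⟩ : Fin n) := by exact_mod_cast h1
    rw [dg, card_pos] at h2
    obtain ⟨b, hb⟩ := h2
    exact ⟨b, by simpa using hb⟩
  refine ⟨k + (∑ v, N b0 (⟨0, by omega⟩ : Fin n) v + ∑ v, N (⟨0, by omega⟩ : Fin n) b0 v), k,
    by omega, hk, P, fun u v h t => (hP u v h).1 t, ?_⟩
  intro e he
  induction e using Sym2.ind with
  | _ a b =>
    have hab : G.Adj a b := he
    rw [hload a b hab]
    have : ((k + (∑ v, N b a v + ∑ v, N a b v) : ℕ) : ℚ) =
        ((k + (∑ v, N b0 (⟨0, by omega⟩ : Fin n) v + ∑ v, N (⟨0, by omega⟩ : Fin n) b0 v) : ℕ) : ℚ) := by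
      rw [hload2 a b hab, hload2 _ b0 hb0]
    exact_mod_cast this

end Pool.Agent.V11328.Q3
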